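import Pool.Agent.H61.HB.Stmts

/-!
Row DUB of project HB (MP_91403e_an): the Duhamel bound.
-/

set_option autoImplicit false

namespace HB

open MeasureTheory Set

/-- Cauchy–Schwarz for continuous functions on `[0,t]`. -/
theorem dub_cs (t : ℝ) (ht : 0 ≤ t) (e g : ℝ → ℝ) (he : ContinuousOn e (Icc 0 t))
    (hg : ContinuousOn g (Icc 0 t)) :
    (∫ r in (0 : ℝ)..t, e r * g r) ^ 2 ≤
      (∫ r in (0 : ℝ)..t, e r ^ 2) * ∫ r in (0 : ℝ)..t, g r ^ 2 := by
  have hI : ∀ f : ℝ → ℝ, ContinuousOn f (Icc 0 t) → IntervalIntegrable f volume 0 t := by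
    intro f hf
    exact ContinuousOn.intervalIntegrable (by rwa [uIcc_of_le ht])
  have h1 := hI (fun r => e r ^ 2) (he.pow 2)
  have h2 := hI (fun r => g r ^ 2) (hg.pow 2)
  have h3 := hI (fun r => e r * g r) (he.mul hg)
  have key : ∀ x : ℝ, 0 ≤ (∫ r in (0 : ℝ)..t, e r ^ 2) * (x * x) +
      (-2 * ∫ r in (0 : ℝ)..t, e r * g r) * x + ∫ r in (0 : ℝ)..t, g r ^ 2 := by
    intro x
    have h4 : ∫ r in (0 : ℝ)..t, (x * e r - g r) ^ 2 =
        (∫ r in (0 : ℝ)..t, e r ^ 2) * (x * x) +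
      (-2 * ∫ r in (0 : ℝ)..t, e r * g r) * x + ∫ r in (0 : ℝ)..t, g r ^ 2 := by
      have h5 : ∀ r : ℝ, (x * e r - g r) ^ 2 =
          (x * x) * (e r ^ 2) + (-2 * x) * (e r * g r) + g r ^ 2 := fun r => by ring
      simp_rw [h5]
      rw [intervalIntegral.integral_add ((h1.const_mul _).add (h3.const_mul _)) h2,
        intervalIntegral.integral_add (h1.const_mul _) (h3.const_mul _),
        intervalIntegral.integral_const_mul, intervalIntegral.integral_const_mul]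
      ring
    rw [← h4]
    exact intervalIntegral.integral_nonneg ht (fun r _ => sq_nonneg _)
  have := discrim_le_zero key
  unfold discrim at this
  nlinarith [this]

/-- the kernel -/
theorem dub_ker (lam t : ℝ) (hl : 0 ≤ lam) (ht : 0 ≤ t) :
    (∫ r in (0 : ℝ)..t, (Real.exp (-lam * (t - r))) ^ 2) ≤ t ∧
    (0 < lam → 2 * lam * (∫ r in (0 : ℝ)..t, (Real.exp (-lam * (t - r))) ^ 2) ≤ 1) := by
  constructor
  · have : ∫ r in (0 : ℝ)..t, (Real.exp (-lam * (t - r))) ^ 2 ≤ ∫ r in (0 : ℝ)..t, (1 : ℝ) := by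
      apply intervalIntegral.integral_mono_on ht
      · apply Continuous.intervalIntegrable; fun_prop
      · apply Continuous.intervalIntegrable; fun_prop
      · intro r hr
        have h1 : Real.exp (-lam * (t - r)) ≤ 1 := by
          rw [Real.exp_le_one_iff]
          nlinarith [mul_nonneg hl (sub_nonneg.2 hr.2)]
        have h2 := Real.exp_pos (-lam * (t - r))
        nlinarith
    simpa using this
  · intro hl'
    have h1 : ∀ r : ℝ, HasDerivAt (fun r => (Real.exp (-lam * (t - r))) ^ 2)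
        (2 * lam * (Real.exp (-lam * (t - r))) ^ 2) r := by
      intro r
      have h2 : HasDerivAt (fun r : ℝ => -lam * (t - r)) (-lam * (0 - 1)) r :=
        ((hasDerivAt_const r t).sub (hasDerivAt_id r)).const_mul _
      have h3 := (h2.exp).pow 2
      have h4 : ((2 : ℕ) : ℝ) * Real.exp (-lam * (t - r)) ^ (2 - 1) *
          (Real.exp (-lam * (t - r)) * (-lam * (0 - 1))) =
          2 * lam * (Real.exp (-lam * (t - r))) ^ 2 := by
        push_cast
        ring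
      rw [← h4]
      exact h3
    have h2 : ∫ r in (0 : ℝ)..t, 2 * lam * (Real.exp (-lam * (t - r))) ^ 2 =
        (Real.exp (-lam * (t - t))) ^ 2 - (Real.exp (-lam * (t - 0))) ^ 2 := by
      apply intervalIntegral.integral_eq_sub_of_hasDerivAt (fun r _ => h1 r)
      apply Continuous.intervalIntegrable; fun_prop
    rw [intervalIntegral.integral_const_mul] at h2
    rw [h2]
    have := Real.exp_pos (-lam * (t - 0))
    simp
    positivity

/-- the bound for one coefficient -/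
theorem dub_coef (ν T q : ℝ) (hν : 0 < ν) (hq : q = 0 ∨ 1 ≤ q) (g : ℝ → ℂ) (t : ℝ)
    (ht : t ∈ Icc 0 T) (hg : ContinuousOn g (Icc 0 t)) :
    (1 + q) ^ 2 * ‖∫ r in (0 : ℝ)..t, (Real.exp (-(ν * q ^ 2) * (t - r)) : ℂ) * g r‖ ^ 2 ≤
      (T + 2 / ν) * ∫ r in (0 : ℝ)..t, ‖g r‖ ^ 2 := by
  have hq0 : 0 ≤ q := by rcases hq with h | h <;> linarith
  have hlam : 0 ≤ ν * q ^ 2 := by positivity
  obtain ⟨k1, k2⟩ := dub_ker (ν * q ^ 2) t hlam ht.1
  have hcs := dub_cs t ht.1 (fun r => Real.exp (-(ν * q ^ 2) * (t - r))) (fun r => ‖g r‖)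
    (by fun_prop) hg.norm
  have hn : ‖∫ r in (0 : ℝ)..t, (Real.exp (-(ν * q ^ 2) * (t - r)) : ℂ) * g r‖ ≤
      ∫ r in (0 : ℝ)..t, Real.exp (-(ν * q ^ 2) * (t - r)) * ‖g r‖ := by
    refine (intervalIntegral.norm_integral_le_integral_norm ht.1).trans (le_of_eq ?_)
    apply intervalIntegral.integral_congr
    intro r _
    simp only [norm_mul, Complex.norm_real, Real.norm_eq_abs, abs_of_pos (Real.exp_pos _)]
  set K := ∫ r in (0 : ℝ)..t, (Real.exp (-(ν * q ^ 2) * (t - r))) ^ 2 with hK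
  set B := ∫ r in (0 : ℝ)..t, ‖g r‖ ^ 2 with hB
  have hB0 : 0 ≤ B := intervalIntegral.integral_nonneg ht.1 (fun r _ => by positivity)
  have hK0 : 0 ≤ K := intervalIntegral.integral_nonneg ht.1 (fun r _ => by positivity)
  have h1 : ‖∫ r in (0 : ℝ)..t, (Real.exp (-(ν * q ^ 2) * (t - r)) : ℂ) * g r‖ ^ 2 ≤ K * B :=
    (pow_le_pow_left₀ (norm_nonneg _) hn 2).trans hcs
  have h2 : (1 + q) ^ 2 * K ≤ T + 2 / ν := by
    rcases hq with h | h
    · subst h
      have : 0 < 2 / ν := by positivity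
      have := ht.2
      nlinarith
    · have h3 := k2 (by positivity)
      have hT : 0 ≤ T := ht.1.trans ht.2
      have h4 : (1 + q) ^ 2 * K ≤ 2 / ν := by
        rw [le_div_iff₀ hν]
        have h5 : (1 + q) ^ 2 ≤ 4 * q ^ 2 := by nlinarith
        calc (1 + q) ^ 2 * K * ν ≤ 4 * q ^ 2 * K * ν := by gcongr
          _ = 2 * (2 * (ν * q ^ 2) * K) := by ring
          _ ≤ 2 * 1 := by gcongr
          _ = 2 := by norm_num
      linarith
  calc (1 + q) ^ 2 * ‖∫ r in (0 : ℝ)..t, (Real.exp (-(ν * q ^ 2) * (t - r)) : ℂ) * g r‖ ^ 2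
      ≤ (1 + q) ^ 2 * (K * B) := by gcongr
    _ = (1 + q) ^ 2 * K * B := by ring
    _ ≤ (T + 2 / ν) * B := by gcongr

theorem sq_nonneg' (k : Z2) : 0 ≤ sq k := by unfold sq; positivity

theorem sq_cases (k : Z2) : sq k = 0 ∨ 1 ≤ sq k := by
  unfold sq
  have h : (k.1 : ℝ) ^ 2 + (k.2 : ℝ) ^ 2 = ((k.1 ^ 2 + k.2 ^ 2 : ℤ) : ℝ) := by push_cast; ring
  rw [h]
  by_cases h0 : k.1 ^ 2 + k.2 ^ 2 = 0
  · left; exact_mod_cast h0
  · right
    have h1 : 0 ≤ k.1 ^ 2 + k.2 ^ 2 := by positivity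
    have : 1 ≤ k.1 ^ 2 + k.2 ^ 2 := by omega
    exact_mod_cast this

theorem one_sq_pos (k : Z2) : 0 < 1 + sq k := by have := sq_nonneg' k; linarith

theorem rpow_split (k : Z2) (s : ℝ) :
    (1 + sq k) ^ s = (1 + sq k) ^ (s - 2) * (1 + sq k) ^ 2 := by
  rw [← Real.rpow_natCast (1 + sq k) 2, ← Real.rpow_add (one_sq_pos k)]
  congr 1
  push_cast
  ring

/-- coefficient form of the Duhamel bound -/
theorem dub_term (hCON : CONStmt) (ν s T : ℝ) (G : ℝ → V) (hν : 0 < ν)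
    (hG : Cts (s - 2) T G) (t : ℝ) (ht : t ∈ Icc 0 T) (j : Fin 2) (k : Z2) :
    (1 + sq k) ^ s * ‖duh ν G t j k‖ ^ 2 ≤
      (T + 2 / ν) * ((1 + sq k) ^ (s - 2) * ∫ r in (0 : ℝ)..t, ‖G r j k‖ ^ 2) := by
  have hc := ((hCON (s - 2) T G hG).1 j k).mono (Icc_subset_Icc_right ht.2)
  have h1 := dub_coef ν T (sq k) hν (sq_cases k) (fun r => G r j k) t ht hc
  rw [rpow_split]
  have h2 : 0 ≤ (1 + sq k) ^ (s - 2) := (Real.rpow_pos_of_pos (one_sq_pos k) _).le
  calc (1 + sq k) ^ (s - 2) * (1 + sq k) ^ 2 * ‖duh ν G t j k‖ ^ 2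
      = (1 + sq k) ^ (s - 2) * ((1 + sq k) ^ 2 * ‖duh ν G t j k‖ ^ 2) := by ring
    _ ≤ (1 + sq k) ^ (s - 2) * ((T + 2 / ν) * ∫ r in (0 : ℝ)..t, ‖G r j k‖ ^ 2) := by
        exact mul_le_mul_of_nonneg_left h1 h2
    _ = _ := by ring

/-- partial sums -/
theorem dub_part (hCON : CONStmt) (s T : ℝ) (G : ℝ → V)
    (hG : Cts (s - 2) T G) (t : ℝ) (ht : t ∈ Icc 0 T) (S : Finset Z2) :
    ∑ j : Fin 2, ∑ k ∈ S, (1 + sq k) ^ (s - 2) * ∫ r in (0 : ℝ)..t, ‖G r j k‖ ^ 2 ≤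
      ∫ r in (0 : ℝ)..t, nsq (s - 2) (G r) := by
  have hI : ∀ f : ℝ → ℝ, ContinuousOn f (Icc 0 T) → IntervalIntegrable f volume 0 t := by
    intro f hf
    apply ContinuousOn.intervalIntegrable
    rw [uIcc_of_le ht.1]
    exact hf.mono (Icc_subset_Icc_right ht.2)
  obtain ⟨c1, c2⟩ := hCON (s - 2) T G hG
  have hterm : ∀ (j : Fin 2) (k : Z2), ContinuousOn
      (fun r => (1 + sq k) ^ (s - 2) * ‖G r j k‖ ^ 2) (Icc 0 T) := by
    intro j k
    exact continuousOn_const.mul ((c1 j k).norm.pow 2)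
  have h1 : ∑ j : Fin 2, ∑ k ∈ S, (1 + sq k) ^ (s - 2) * ∫ r in (0 : ℝ)..t, ‖G r j k‖ ^ 2 =
      ∫ r in (0 : ℝ)..t, ∑ j : Fin 2, ∑ k ∈ S, (1 + sq k) ^ (s - 2) * ‖G r j k‖ ^ 2 := by
    rw [intervalIntegral.integral_finsetSum]
    · refine Finset.sum_congr rfl fun j _ => ?_
      rw [intervalIntegral.integral_finsetSum]
      · refine Finset.sum_congr rfl fun k _ => ?_
        rw [intervalIntegral.integral_const_mul]
      · intro k _
        exact hI _ (hterm j k)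
    · intro j _
      apply hI
      exact continuousOn_finsetSum _ fun k _ => hterm j k
  rw [h1]
  apply intervalIntegral.integral_mono_on ht.1
  · apply hI
    exact continuousOn_finsetSum _ fun j _ => continuousOn_finsetSum _ fun k _ => hterm j k
  · exact hI _ c2
  · intro r hr
    have hm := hG.1 r ⟨hr.1, hr.2.trans ht.2⟩
    unfold nsq nqS
    refine Finset.sum_le_sum fun j _ => ?_
    exact (hm j).sum_le_tsum S fun k _ => by
      have := (Real.rpow_pos_of_pos (one_sq_pos k) (s - 2)).le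
      positivity

theorem dub_int_nonneg (t : ℝ) (ht : 0 ≤ t) (g : ℝ → ℂ) :
    0 ≤ ∫ r in (0 : ℝ)..t, ‖g r‖ ^ 2 :=
  intervalIntegral.integral_nonneg ht (fun r _ => by positivity)

/-- summability of the majorant -/
theorem dub_summ (hCON : CONStmt) (s T : ℝ) (G : ℝ → V)
    (hG : Cts (s - 2) T G) (t : ℝ) (ht : t ∈ Icc 0 T) (j : Fin 2) :
    Summable fun k => (1 + sq k) ^ (s - 2) * ∫ r in (0 : ℝ)..t, ‖G r j k‖ ^ 2 := by
  have hnn : ∀ (j : Fin 2) (k : Z2),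
      0 ≤ (1 + sq k) ^ (s - 2) * ∫ r in (0 : ℝ)..t, ‖G r j k‖ ^ 2 := fun j k =>
    mul_nonneg (Real.rpow_pos_of_pos (one_sq_pos k) _).le (dub_int_nonneg t ht.1 _)
  refine summable_of_sum_le (c := ∫ r in (0 : ℝ)..t, nsq (s - 2) (G r)) (hnn j) fun S => ?_
  refine le_trans ?_ (dub_part hCON s T G hG t ht S)
  exact Finset.single_le_sum (f := fun j : Fin 2 =>
    ∑ k ∈ S, (1 + sq k) ^ (s - 2) * ∫ r in (0 : ℝ)..t, ‖G r j k‖ ^ 2)
    (fun i _ => Finset.sum_nonneg fun k _ => hnn i k) (Finset.mem_univ j)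

theorem dub_thm (hCON : CONStmt) : DUBStmt := by
  intro ν s T G hν hT hG t ht
  have hpos : 0 ≤ T + 2 / ν := by positivity
  have hmem : Mem s (duh ν G t) := by
    intro j
    refine Summable.of_nonneg_of_le ?_ (dub_term hCON ν s T G hν hG t ht j)
      ((dub_summ hCON s T G hG t ht j).mul_left _)
    intro k
    have := (Real.rpow_pos_of_pos (one_sq_pos k) s).le
    positivity
  refine ⟨hmem, ?_⟩
  have ht1 : Filter.Tendsto (fun S : Finset Z2 => ∑ j : Fin 2, ∑ k ∈ S,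
      (1 + sq k) ^ s * ‖duh ν G t j k‖ ^ 2) Filter.atTop (nhds (nsq s (duh ν G t))) :=
    tendsto_finsetSum _ fun j _ => (hmem j).hasSum
  refine le_of_tendsto' ht1 fun S => ?_
  calc ∑ j : Fin 2, ∑ k ∈ S, (1 + sq k) ^ s * ‖duh ν G t j k‖ ^ 2
      ≤ ∑ j : Fin 2, ∑ k ∈ S,
        (T + 2 / ν) * ((1 + sq k) ^ (s - 2) * ∫ r in (0 : ℝ)..t, ‖G r j k‖ ^ 2) :=
        Finset.sum_le_sum fun j _ => Finset.sum_le_sum fun k _ =>
          dub_term hCON ν s T G hν hG t ht j k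
    _ = (T + 2 / ν) * ∑ j : Fin 2, ∑ k ∈ S,
        (1 + sq k) ^ (s - 2) * ∫ r in (0 : ℝ)..t, ‖G r j k‖ ^ 2 := by
        simp only [Finset.mul_sum]
    _ ≤ (T + 2 / ν) * ∫ r in (0 : ℝ)..t, nsq (s - 2) (G r) := by
        gcongr
        exact dub_part hCON s T G hG t ht S

/-! ### Continuity (row DUC) -/

theorem duc_coef (ν T : ℝ) (g : ℝ → ℂ) (q : ℝ) (hg : ContinuousOn g (Icc 0 T)) (hT : 0 ≤ T) :
    ContinuousOn (fun t => ∫ r in (0 : ℝ)..t, (Real.exp (-(ν * q ^ 2) * (t - r)) : ℂ) * g r)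
      (Icc 0 T) := by
  have h1 : ∀ t : ℝ, ∫ r in (0 : ℝ)..t, (Real.exp (-(ν * q ^ 2) * (t - r)) : ℂ) * g r =
      (Real.exp (-(ν * q ^ 2) * t) : ℂ) *
        ∫ r in (0 : ℝ)..t, (Real.exp ((ν * q ^ 2) * r) : ℂ) * g r := by
    intro t
    rw [← intervalIntegral.integral_const_mul]
    apply intervalIntegral.integral_congr
    intro r _
    simp only
    rw [← mul_assoc, ← Complex.ofReal_mul, ← Real.exp_add]
    congr 3
    ring
  simp_rw [h1]
  apply ContinuousOn.mul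
  · fun_prop
  · have h2 : ContinuousOn (fun r => (Real.exp ((ν * q ^ 2) * r) : ℂ) * g r) (Icc 0 T) :=
      ContinuousOn.mul (by fun_prop) hg
    have h3 : IntegrableOn (fun r => (Real.exp ((ν * q ^ 2) * r) : ℂ) * g r) (uIcc 0 T) := by
      rw [uIcc_of_le hT]
      exact h2.integrableOn_Icc
    have := intervalIntegral.continuousOn_primitive_interval h3
    rwa [uIcc_of_le hT] at this

theorem duc_thm (hCON : CONStmt) : DUCStmt := by
  intro ν s T G hν hT hG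
  have hpos : 0 ≤ T + 2 / ν := by positivity
  refine ⟨fun t ht => (dub_thm hCON ν s T G hν hT hG t ht).1, fun t ht => ?_⟩
  have hTm : T ∈ Icc (0 : ℝ) T := ⟨hT, le_rfl⟩
  have hI : ∀ (j : Fin 2) (k : Z2) (r : ℝ), r ∈ Icc 0 T →
      ∫ x in (0 : ℝ)..r, ‖G x j k‖ ^ 2 ≤ ∫ x in (0 : ℝ)..T, ‖G x j k‖ ^ 2 := by
    intro j k r hr
    have hc : ContinuousOn (fun x => ‖G x j k‖ ^ 2) (Icc 0 T) :=
      ((hCON (s - 2) T G hG).1 j k).norm.pow 2
    have hi : ∀ a ∈ Icc (0 : ℝ) T, ∀ b ∈ Icc (0 : ℝ) T,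
        IntervalIntegrable (fun x => ‖G x j k‖ ^ 2) volume a b := by
      intro a ha b hb
      apply ContinuousOn.intervalIntegrable
      exact hc.mono (uIcc_subset_Icc ha hb)
    rw [← intervalIntegral.integral_add_adjacent_intervals
      (hi 0 ⟨le_rfl, hT⟩ r hr) (hi r hr T hTm)]
    have : 0 ≤ ∫ x in r..T, ‖G x j k‖ ^ 2 :=
      intervalIntegral.integral_nonneg hr.2 (fun x _ => by positivity)
    linarith
  have hterm : ∀ (j : Fin 2) (k : Z2) (r : ℝ), r ∈ Icc 0 T →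
      (1 + sq k) ^ s * ‖duh ν G r j k‖ ^ 2 ≤
        (T + 2 / ν) * ((1 + sq k) ^ (s - 2) * ∫ x in (0 : ℝ)..T, ‖G x j k‖ ^ 2) := by
    intro j k r hr
    refine (dub_term hCON ν s T G hν hG r hr j k).trans ?_
    have := (Real.rpow_pos_of_pos (one_sq_pos k) (s - 2)).le
    gcongr
    exact hI j k r hr
  have hlim : ∀ j : Fin 2, Filter.Tendsto (fun r => nqS s ((duh ν G r - duh ν G t) j))
      (nhdsWithin t (Icc 0 T)) (nhds 0) := by
    intro j
    suffices hs : Filter.Tendsto (fun r => nqS s ((duh ν G r - duh ν G t) j))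
        (nhdsWithin t (Icc 0 T)) (nhds (∑' _ : Z2, (0 : ℝ))) by simpa using hs
    unfold nqS
    refine tendsto_tsum_of_dominated_convergence
      (bound := fun k => 4 * ((T + 2 / ν) * ((1 + sq k) ^ (s - 2) *
        ∫ x in (0 : ℝ)..T, ‖G x j k‖ ^ 2))) ?_ ?_ ?_
    · exact ((dub_summ hCON s T G hG T hTm j).mul_left _).mul_left _
    · intro k
      have hc : ContinuousOn (fun r => duh ν G r j k) (Icc 0 T) :=
        duc_coef ν T (fun r => G r j k) (sq k) ((hCON (s - 2) T G hG).1 j k) hT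
      have h1 : Filter.Tendsto (fun r => duh ν G r j k - duh ν G t j k)
          (nhdsWithin t (Icc 0 T)) (nhds 0) := by
        have := (hc t ht).tendsto.sub_const (duh ν G t j k)
        simpa using this
      have h2 := ((h1.norm).pow 2).const_mul ((1 + sq k) ^ s)
      simpa using h2
    · filter_upwards [self_mem_nhdsWithin] with r hr k
      have hp := (Real.rpow_pos_of_pos (one_sq_pos k) s).le
      have h0 : 0 ≤ (1 + sq k) ^ s * ‖(duh ν G r - duh ν G t) j k‖ ^ 2 := by positivity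
      rw [Real.norm_of_nonneg h0]
      have h1 : ‖(duh ν G r - duh ν G t) j k‖ ≤ ‖duh ν G r j k‖ + ‖duh ν G t j k‖ :=
        norm_sub_le _ _
      have h2 : ‖(duh ν G r - duh ν G t) j k‖ ^ 2 ≤
          2 * ‖duh ν G r j k‖ ^ 2 + 2 * ‖duh ν G t j k‖ ^ 2 := by
        calc ‖(duh ν G r - duh ν G t) j k‖ ^ 2 ≤ (‖duh ν G r j k‖ + ‖duh ν G t j k‖) ^ 2 :=
              pow_le_pow_left₀ (norm_nonneg _) h1 2
          _ ≤ _ := by nlinarith [_root_.sq_nonneg (‖duh ν G r j k‖ - ‖duh ν G t j k‖)]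
      calc (1 + sq k) ^ s * ‖(duh ν G r - duh ν G t) j k‖ ^ 2
          ≤ (1 + sq k) ^ s * (2 * ‖duh ν G r j k‖ ^ 2 + 2 * ‖duh ν G t j k‖ ^ 2) := by gcongr
        _ = 2 * ((1 + sq k) ^ s * ‖duh ν G r j k‖ ^ 2) +
            2 * ((1 + sq k) ^ s * ‖duh ν G t j k‖ ^ 2) := by ring
        _ ≤ _ := by linarith [hterm j k r hr, hterm j k t ht]
  have := tendsto_finsetSum (Finset.univ : Finset (Fin 2)) (fun j _ => hlim j)
  simpa [nsq] using this

end HB
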